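import Pool.Agent.W4helper48.JN.Stm

/-!
# Co-pseudoforests: a 4-polytopal join
-/

set_option autoImplicit false

namespace Pool.Agent.W2helper71.JN

open Pool.Agent.W4helper48.JN Finset

/-- a point of the moment curve -/
noncomputable def mom (x : ℝ) : Fin 4 → ℝ := fun k => x ^ (k.val + 1)

/-- the polynomial functions of degree at most four -/
def Qu (q : ℝ → ℝ) : Prop := ∃ (c0 : ℝ) (c : Fin 4 → ℝ), ∀ x, af c0 c (mom x) = q x

theorem qu_mul (a0 a1 a2 b0 b1 b2 d : ℝ) :
    Qu fun x => (a0 + a1 * x + a2 * x ^ 2) * (b0 + b1 * x + b2 * x ^ 2) + d := by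
  refine ⟨a0 * b0 + d, ![a0 * b1 + a1 * b0, a0 * b2 + a1 * b1 + a2 * b0, a1 * b2 + a2 * b1,
    a2 * b2], fun x => ?_⟩
  simp only [af, mom, Fin.sum_univ_four, Matrix.cons_val_zero, Matrix.cons_val_one,
    Matrix.cons_val, Fin.val_zero, Fin.val_one]
  norm_num
  ring

theorem Qu.congr {q r : ℝ → ℝ} (h : Qu q) (hqr : ∀ x, q x = r x) : Qu r := by
  obtain ⟨c0, c, hc⟩ := h
  exact ⟨c0, c, fun x => (hc x).trans (hqr x)⟩

/-- the product of two monic quadratic polynomials with constants -/
theorem qu_two (a b c d η θ : ℝ) :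
    Qu fun x => ((x - a) * (x - b) + η) * ((x - c) * (x - d) + θ) :=
  (qu_mul (a * b + η) (-(a + b)) 1 (c * d + θ) (-(c + d)) 1 0).congr fun x => by ring

theorem qu_two' (a b c d η : ℝ) :
    Qu fun x => (x - a) * (x - b) * ((x - c) * (x - d)) + η :=
  (qu_mul (a * b) (-(a + b)) 1 (c * d) (-(c + d)) 1 η).congr fun x => by ring

/-- the vertex of an element of `V` -/
noncomputable def vt (ε s t z : ℝ) : Fin 4 → ℝ := fun k =>
  (1 - ε)⁻¹ * ((mom s k + mom t k) / 2 - ε * mom z k)

theorem af_vt {ε : ℝ} (hε : ε < 1) (c0 : ℝ) (c : Fin 4 → ℝ) (s t z : ℝ) :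
    af c0 c (vt ε s t z) = (1 - ε)⁻¹ *
      ((af c0 c (mom s) + af c0 c (mom t)) / 2 - ε * af c0 c (mom z)) := by
  have h : (1 - ε) ≠ 0 := by
    intro h
    linarith
  simp only [af, vt, Fin.sum_univ_four]
  field_simp
  ring

theorem interp (x : Fin 5 → ℝ) (hx : Function.Injective x) (f : Polynomial ℝ)
    (hf : f.natDegree < 5) (y : ℝ) :
    f.eval y = ∑ i, f.eval (x i) * (Lagrange.basis univ x i).eval y := by
  have h := Lagrange.eq_interpolate (s := univ) (v := x) (f := f) hx.injOn
    (by
      rw [Finset.card_univ, Fintype.card_fin]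
      exact lt_of_le_of_lt Polynomial.degree_le_natDegree (by exact_mod_cast hf))
  conv_lhs => rw [h]
  rw [Lagrange.interpolate_apply, Polynomial.eval_finsetSum]
  simp

theorem basis_bound (x : Fin 5 → ℝ) (B : ℝ)
    (hsep : ∀ i j, i ≠ j → 1 ≤ |x i - x j|) (y : ℝ) (hy : ∀ j, |y - x j| ≤ B) (i : Fin 5) :
    |(Lagrange.basis univ x i).eval y| ≤ B ^ 4 := by
  rw [Lagrange.basis, Polynomial.eval_prod, Finset.abs_prod]
  calc _ ≤ ∏ _j ∈ univ.erase i, B := by
        apply Finset.prod_le_prod
        · intros
          exact abs_nonneg _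
        · intro j hj
          have hj' := Finset.ne_of_mem_erase hj
          simp only [Lagrange.basisDivisor, Polynomial.eval_mul, Polynomial.eval_C,
            Polynomial.eval_sub, Polynomial.eval_X, abs_mul, abs_inv]
          have h1 := hsep i j hj'.symm
          have h2 : |x i - x j|⁻¹ ≤ 1 := inv_le_one_of_one_le₀ h1
          calc _ ≤ 1 * B := mul_le_mul h2 (hy j) (abs_nonneg _) zero_le_one
            _ = B := one_mul B
    _ = B ^ 4 := by
        rw [prod_const, card_erase_of_mem (mem_univ _), card_univ, Fintype.card_fin]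

/-- the functional of a vertex, without normalization -/
noncomputable def Lf (ε s t z : ℝ) (q : ℝ → ℝ) : ℝ := (q s + q t) / 2 - ε * q z

/-- the interpolation of a combination of two functionals -/
theorem comb (ε a b s t z s' t' z' : ℝ) (x : Fin 5 → ℝ) (hx : Function.Injective x)
    (f : Polynomial ℝ) (hf : f.natDegree < 5) :
    a * Lf ε s t z (fun y => f.eval y) + b * Lf ε s' t' z' (fun y => f.eval y) =
      ∑ i, (a * Lf ε s t z (fun y => (Lagrange.basis univ x i).eval y) +
        b * Lf ε s' t' z' (fun y => (Lagrange.basis univ x i).eval y)) * f.eval (x i) := by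
  unfold Lf
  simp only [interp x hx f hf s, interp x hx f hf t, interp x hx f hf z, interp x hx f hf s',
    interp x hx f hf t', interp x hx f hf z']
  simp only [← Finset.sum_add_distrib, Finset.mul_sum, Finset.sum_div, ← Finset.sum_sub_distrib]
  exact Finset.sum_congr rfl fun i _ => by ring

/-! ### Integer points -/

theorem sq_one {a b : ℕ} (h : a ≠ b) : 1 ≤ ((a : ℝ) - b) ^ 2 := by
  have h1 : (1 : ℤ) ≤ ((a : ℤ) - b) ^ 2 := by
    have : ((a : ℤ) - b) ≠ 0 := by omega
    have := sq_pos_of_ne_zero this
    omega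
  exact_mod_cast h1

theorem half_sq (a b : ℕ) : 1 / 4 ≤ ((2 * a + 1 / 2 : ℝ) - b) ^ 2 := by
  have h1 : (1 : ℤ) ≤ (4 * (a : ℤ) + 1 - 2 * b) ^ 2 := by
    have : (4 * (a : ℤ) + 1 - 2 * b) ≠ 0 := by omega
    have := sq_pos_of_ne_zero this
    omega
  have h2 : (1 : ℝ) ≤ (4 * (a : ℝ) + 1 - 2 * b) ^ 2 := by exact_mod_cast h1
  nlinarith

theorem M_nonneg (a j : ℕ) : 0 ≤ ((j : ℝ) - (2 * a : ℕ)) * (j - (2 * a + 1 : ℕ)) := by
  have h : (0 : ℤ) ≤ ((j : ℤ) - (2 * a : ℕ)) * (j - (2 * a + 1 : ℕ)) := by
    push_cast
    rcases le_or_gt j (2 * a) with h | h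
    · exact mul_nonneg_of_nonpos_of_nonpos (by omega) (by omega)
    · exact mul_nonneg (by omega) (by omega)
  exact_mod_cast h

theorem M_two {a j : ℕ} (h1 : j ≠ 2 * a) (h2 : j ≠ 2 * a + 1) :
    2 ≤ ((j : ℝ) - (2 * a : ℕ)) * (j - (2 * a + 1 : ℕ)) := by
  have h : (2 : ℤ) ≤ ((j : ℤ) - (2 * a : ℕ)) * (j - (2 * a + 1 : ℕ)) := by
    push_cast
    rcases le_or_gt j (2 * a) with h | h
    · nlinarith [show (j : ℤ) - 2 * a ≤ -1 by omega, show (j : ℤ) - (2 * a + 1) ≤ -2 by omega]
    · nlinarith [show (2 : ℤ) ≤ (j : ℤ) - 2 * a by omega,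
        show (1 : ℤ) ≤ (j : ℤ) - (2 * a + 1) by omega]
  exact_mod_cast h

theorem M_z {a b : ℕ} (h : a ≠ b) :
    15 / 4 ≤ ((2 * b + 1 / 2 : ℝ) - (2 * a : ℕ)) * ((2 * b + 1 / 2 : ℝ) - (2 * a + 1 : ℕ)) := by
  have h1 := sq_one h
  push_cast
  nlinarith

theorem M_zz (a : ℕ) :
    ((2 * a + 1 / 2 : ℝ) - (2 * a : ℕ)) * ((2 * a + 1 / 2 : ℝ) - (2 * a + 1 : ℕ)) = -(1 / 4) := by
  push_cast
  ring

theorem qu_sq (a : ℝ) : Qu fun x => (x - a) ^ 2 :=
  (qu_mul (a ^ 2) (-(2 * a)) 1 1 0 0 0).congr fun x => by ring

theorem qu_sq2 (a b : ℝ) : Qu fun x => (x - a) ^ 2 * (x - b) ^ 2 :=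
  (qu_mul (a ^ 2) (-(2 * a)) 1 (b ^ 2) (-(2 * b)) 1 0).congr fun x => by ring

theorem qu_M (a b δ : ℝ) : Qu fun x => (x - a) * (x - b) + δ :=
  (qu_mul (a * b) (-(a + b)) 1 1 0 0 δ).congr fun x => by ring

theorem qu_Msq (a b δ c : ℝ) : Qu fun x => ((x - a) * (x - b) + δ) * (x - c) ^ 2 :=
  (qu_mul (a * b + δ) (-(a + b)) 1 (c ^ 2) (-(2 * c)) 1 0).congr fun x => by ring

open Sum in
theorem core {V : Type} [Fintype V] (G : SimpleGraph V) (out : V → Option V)
    (h1 : ∀ v w, out v = some w → w ≠ v ∧ ¬ G.Adj v w)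
    (h2 : ∀ u v, u ≠ v → ¬ G.Adj u v → out u = some v ∨ out v = some u)
    (e : Option V → ℕ) (he : Function.Injective e) (m : ℕ) (hm : 3 ≤ m) (hem : ∀ a, e a < m) :
    IsPolytopal 4 (joinComplete G (2 * m)) := by
  classical
  obtain ⟨B, hB⟩ : ∃ B : ℝ, B = 2 * m := ⟨_, rfl⟩
  have hB6 : 6 ≤ B := by
    rw [hB]
    exact_mod_cast (by omega : 6 ≤ 2 * m)
  obtain ⟨ε, hε⟩ : ∃ ε : ℝ, ε = 1 / (8 * B ^ 8) := ⟨_, rfl⟩
  have hε0 : 0 < ε := by rw [hε]; positivity
  have hε8 : ε * B ^ 8 = 1 / 8 := by rw [hε]; field_simp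
  have hB2 : 36 ≤ B ^ 2 := by nlinarith only [hB6]
  have hB4 : 1296 ≤ B ^ 4 := by nlinarith only [hB2]
  have hB42 : B ^ 2 ≤ B ^ 4 := by nlinarith only [hB2]
  have hE4 : ε * B ^ 4 ≤ 1 / 1000 := by
    have h : ε * B ^ 4 * 1296 ≤ ε * B ^ 4 * B ^ 4 := by gcongr
    have h' : ε * B ^ 4 * B ^ 4 = ε * B ^ 8 := by ring
    rw [h', hε8] at h
    linarith
  have hE2 : ε * B ^ 2 ≤ 1 / 1000 := (mul_le_mul_of_nonneg_left hB42 hε0.le).trans hE4
  have hE1 : ε ≤ 1 / 1000 := by nlinarith only [hE2, hB2, hε0]
  have hinv : 0 < (1 - ε)⁻¹ := inv_pos.2 (by linarith)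
  -- the numbers
  let S : Option V → ℝ := fun a => ((2 * e a : ℕ) : ℝ)
  let T : Option V → ℝ := fun a => ((2 * e a + 1 : ℕ) : ℝ)
  let Z : Option V → ℝ := fun a => 2 * (e a : ℝ) + 1 / 2
  let M : Option V → ℝ → ℝ := fun a x => (x - S a) * (x - T a)
  have hb0 : ∀ j : ℕ, j < 2 * m → 0 ≤ (j : ℝ) ∧ (j : ℝ) ≤ B := fun j hj => by
    rw [hB]
    exact ⟨by positivity, by exact_mod_cast hj.le⟩
  have hbS : ∀ a, 0 ≤ S a ∧ S a ≤ B := fun a => hb0 _ (by have := hem a; omega)
  have hbT : ∀ a, 0 ≤ T a ∧ T a ≤ B := fun a => hb0 _ (by have := hem a; omega)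
  have hbZ : ∀ a, 0 ≤ Z a ∧ Z a ≤ B := fun a => by
    have h3 := hbS a
    have h4 := hbT a
    simp only [S, T, Z] at h3 h4 ⊢
    push_cast at h3 h4
    constructor <;> linarith
  have hbj : ∀ j : Fin (2 * m), 0 ≤ (j.val : ℝ) ∧ (j.val : ℝ) ≤ B := fun j => hb0 _ j.2
  have habs : ∀ x y : ℝ, 0 ≤ x ∧ x ≤ B → 0 ≤ y ∧ y ≤ B → |x - y| ≤ B := fun x y hx hy =>
    abs_le.2 ⟨by linarith [hx.1, hy.2], by linarith [hx.2, hy.1]⟩
  have hsq : ∀ x y : ℝ, 0 ≤ x ∧ x ≤ B → 0 ≤ y ∧ y ≤ B → (x - y) ^ 2 ≤ B ^ 2 := fun x y hx hy => by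
    rw [← sq_abs (x - y)]
    have := habs x y hx hy
    have := abs_nonneg (x - y)
    gcongr
  have hMabs : ∀ a y, 0 ≤ y ∧ y ≤ B → |M a y| ≤ B ^ 2 := fun a y hy => by
    simp only [M, abs_mul]
    have h3 := habs y (S a) hy (hbS a)
    have h4 := habs y (T a) hy (hbT a)
    calc _ ≤ B * B := mul_le_mul h3 h4 (abs_nonneg _) (by linarith)
      _ = B ^ 2 := by ring
  have hM0 : ∀ a (j : ℕ), 0 ≤ M a j := fun a j => M_nonneg _ _
  have hM2 : ∀ a (j : ℕ), j ≠ 2 * e a → j ≠ 2 * e a + 1 → 2 ≤ M a j := fun a j h3 h4 => M_two h3 h4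
  have hMz : ∀ a b, a ≠ b → 15 / 4 ≤ M a (Z b) := fun a b hab => M_z (he.ne hab)
  have hMzz : ∀ a, M a (Z a) = -(1 / 4) := fun a => M_zz _
  have hMS : ∀ a, M a (S a) = 0 := fun a => by simp [M]
  have hMT : ∀ a, M a (T a) = 0 := fun a => by simp [M]
  have hne2 : ∀ {a b}, a ≠ b → e a ≠ e b := fun hab => he.ne hab
  have hMSb : ∀ a b, a ≠ b → 2 ≤ M a (S b) := fun a b hab => by
    have := hne2 hab
    exact hM2 a _ (by omega) (by omega)
  have hMTb : ∀ a b, a ≠ b → 2 ≤ M a (T b) := fun a b hab => by
    have := hne2 hab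
    exact hM2 a _ (by omega) (by omega)
  have hMMz : ∀ a b y, 0 ≤ y ∧ y ≤ B → |M a y * M b y| ≤ B ^ 4 := fun a b y hy => by
    rw [abs_mul]
    calc _ ≤ B ^ 2 * B ^ 2 := mul_le_mul (hMabs a y hy) (hMabs b y hy) (abs_nonneg _) (by positivity)
      _ = B ^ 4 := by ring
  -- the points
  let L : V → (ℝ → ℝ) → ℝ := fun v q => Lf ε (S (some v)) (T (some v)) (Z (out v)) q
  let p : V ⊕ Fin (2 * m) → Fin 4 → ℝ := Sum.elim
    (fun v => vt ε (S (some v)) (T (some v)) (Z (out v))) (fun j => mom (j.val : ℝ))
  have key : ∀ q, Qu q → ∃ (c0 : ℝ) (c : Fin 4 → ℝ),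
      (∀ j : Fin (2 * m), af c0 c (p (inr j)) = q (j.val : ℝ)) ∧
      ∀ v, af c0 c (p (inl v)) = (1 - ε)⁻¹ * L v q := by
    rintro q ⟨c0, c, hc⟩
    refine ⟨c0, c, fun j => hc _, fun v => ?_⟩
    change af c0 c (vt ε (S (some v)) (T (some v)) (Z (out v))) = _
    rw [af_vt (by linarith), hc, hc, hc]
    rfl
  have hout : ∀ v, out v ≠ some v := fun v h => (h1 v v h).1 rfl
  have : Nonempty (V ⊕ Fin (2 * m)) := ⟨inr ⟨0, by omega⟩⟩
  refine polytopal_of (joinComplete G (2 * m)) p ?_ ?_ ?_ ?_
  · -- the points span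
    intro c0 c h
    have hv : ∀ j : ℕ, j < 2 * m → c0 + (c 0 * j + c 1 * j ^ 2 + c 2 * j ^ 3 + c 3 * j ^ 4) = 0 := by
      intro j hj
      have h3 := h (inr ⟨j, hj⟩)
      simp only [p, af, mom, Fin.sum_univ_four, Sum.elim_inr] at h3
      norm_num at h3
      linarith
    have k0 := hv 0 (by omega)
    have k1 := hv 1 (by omega)
    have k2 := hv 2 (by omega)
    have k3 := hv 3 (by omega)
    have k4 := hv 4 (by omega)
    norm_num at k0 k1 k2 k3 k4
    funext k
    fin_cases k
    · change c 0 = 0
      linarith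
    · change c 1 = 0
      linarith
    · change c 2 = 0
      linarith
    · change c 3 = 0
      linarith
  · -- the vertices
    rintro (v | x)
    · have hz := hMz (some v) (out v) (hout v).symm
      obtain ⟨δ, hδ⟩ : ∃ δ : ℝ, δ = (1 - ε)⁻¹ * (ε * M (some v) (Z (out v))) := ⟨_, rfl⟩
      have hδ0 : 0 < δ := by
        rw [hδ]
        exact mul_pos hinv (mul_pos hε0 (by linarith))
      have hδ1 : δ * (1 - ε) = ε * M (some v) (Z (out v)) := by
        have : (1 - ε) ≠ 0 := by linarith
        rw [hδ]
        field_simp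
      obtain ⟨c0, c, hj, hv⟩ := key _ (qu_M (S (some v)) (T (some v)) δ)
      refine ⟨c0, c, ?_, ?_⟩
      · rw [hv]
        have h3 : L v (fun x => (x - S (some v)) * (x - T (some v)) + δ) =
            (M (some v) (S (some v)) + δ + (M (some v) (T (some v)) + δ)) / 2 -
              ε * (M (some v) (Z (out v)) + δ) := rfl
        rw [h3, hMS, hMT]
        have : (0 + δ + (0 + δ)) / 2 - ε * (M (some v) (Z (out v)) + δ) = 0 := by linarith
        rw [this, mul_zero]
      · rintro (w | j) hw
        · rw [hv]
          refine mul_pos hinv ?_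
          have hvw : some v ≠ some w := fun h => hw (by rw [Option.some.inj h])
          have h3 : L w (fun x => (x - S (some v)) * (x - T (some v)) + δ) =
            (M (some v) (S (some w)) + δ + (M (some v) (T (some w)) + δ)) / 2 -
              ε * (M (some v) (Z (out w)) + δ) := rfl
          rw [h3]
          have h4 := hMSb (some v) (some w) hvw
          have h5 := hMTb (some v) (some w) hvw
          have h6 := mul_le_mul_of_nonneg_left (le_of_abs_le (hMabs (some v) (Z (out w)) (hbZ _)))
            hε0.le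
          nlinarith only [h4, h5, h6, hδ0, hE1, hE2, hε0]
        · rw [hj]
          have := hM0 (some v) j.val
          change 0 < M (some v) j.val + δ
          linarith
    · obtain ⟨c0, c, hj, hv⟩ := key _ (qu_sq (x.val : ℝ))
      refine ⟨c0, c, ?_, ?_⟩
      · rw [hj]
        ring
      · rintro (w | j) hw
        · rw [hv]
          refine mul_pos hinv ?_
          have h3 : L w (fun y => (y - x.val) ^ 2) =
            ((S (some w) - x.val) ^ 2 + (T (some w) - x.val) ^ 2) / 2 -
              ε * (Z (out w) - x.val) ^ 2 := rfl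
          rw [h3]
          have h4 := mul_le_mul_of_nonneg_left (hsq (Z (out w)) x.val (hbZ _) (hbj x)) hε0.le
          have h5 : 1 ≤ (S (some w) - x.val) ^ 2 + (T (some w) - x.val) ^ 2 := by
            by_cases h : 2 * e (some w) = x.val
            · have := sq_one (a := 2 * e (some w) + 1) (b := x.val) (by omega)
              have := sq_nonneg (S (some w) - x.val)
              change 1 ≤ (T (some w) - x.val) ^ 2 at *
              linarith
            · have := sq_one h
              have := sq_nonneg (T (some w) - x.val)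
              change 1 ≤ (S (some w) - x.val) ^ 2 at *
              linarith
          linarith
        · rw [hj]
          have h : j.val ≠ x.val := fun h => hw (by rw [Fin.ext h])
          have := sq_one h
          linarith
  · -- the edges
    have mixed : ∀ (v : V) (x : Fin (2 * m)), ∃ (c0 : ℝ) (c : Fin 4 → ℝ),
        af c0 c (p (inl v)) ≤ 0 ∧ af c0 c (p (inr x)) ≤ 0 ∧
        ∀ w, w ≠ inl v → w ≠ inr x → 0 < af c0 c (p w) := by
      intro v x
      obtain ⟨δ, hδ⟩ : ∃ δ : ℝ, δ = ε / (2 * B ^ 2) := ⟨_, rfl⟩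
      have hδ0 : 0 < δ := by rw [hδ]; positivity
      have hδ1 : δ * B ^ 2 = ε / 2 := by rw [hδ]; field_simp
      obtain ⟨c0, c, hj, hv⟩ := key _ (qu_Msq (S (some v)) (T (some v)) δ x.val)
      refine ⟨c0, c, ?_, ?_, ?_⟩
      · rw [hv]
        refine mul_nonpos_of_nonneg_of_nonpos hinv.le ?_
        have h3 : L v (fun y => ((y - S (some v)) * (y - T (some v)) + δ) * (y - x.val) ^ 2) =
            ((M (some v) (S (some v)) + δ) * (S (some v) - x.val) ^ 2 +
              (M (some v) (T (some v)) + δ) * (T (some v) - x.val) ^ 2) / 2 -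
              ε * ((M (some v) (Z (out v)) + δ) * (Z (out v) - x.val) ^ 2) := rfl
        rw [h3, hMS, hMT]
        have h4 := mul_le_mul_of_nonneg_left (hsq (S (some v)) x.val (hbS _) (hbj x)) hδ0.le
        have h5 := mul_le_mul_of_nonneg_left (hsq (T (some v)) x.val (hbT _) (hbj x)) hδ0.le
        have h6 : 15 / 16 ≤ (M (some v) (Z (out v)) + δ) * (Z (out v) - x.val) ^ 2 := by
          have h7 := hMz (some v) (out v) (hout v).symm
          have h8 : 1 / 4 ≤ (Z (out v) - x.val) ^ 2 := half_sq _ _
          nlinarith only [h7, h8, hδ0]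
        have h9 := mul_le_mul_of_nonneg_left h6 hε0.le
        linarith
      · rw [hj]
        have : ((x.val : ℝ) - x.val) = 0 := sub_self _
        rw [this]
        simp
      · rintro (w | j) hw1 hw2
        · rw [hv]
          refine mul_pos hinv ?_
          have hvw : some v ≠ some w := fun h => hw1 (by rw [Option.some.inj h])
          have h3 : L w (fun y => ((y - S (some v)) * (y - T (some v)) + δ) * (y - x.val) ^ 2) =
            ((M (some v) (S (some w)) + δ) * (S (some w) - x.val) ^ 2 +
              (M (some v) (T (some w)) + δ) * (T (some w) - x.val) ^ 2) / 2 -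
              ε * ((M (some v) (Z (out w)) + δ) * (Z (out w) - x.val) ^ 2) := rfl
          rw [h3]
          have h4 := hMSb (some v) (some w) hvw
          have h5 := hMTb (some v) (some w) hvw
          have h6 : 2 ≤ (M (some v) (S (some w)) + δ) * (S (some w) - x.val) ^ 2 +
              (M (some v) (T (some w)) + δ) * (T (some w) - x.val) ^ 2 := by
            have h10 := sq_nonneg (S (some w) - x.val)
            have h11 := sq_nonneg (T (some w) - x.val)
            by_cases h : 2 * e (some w) = x.val
            · have h12 := sq_one (a := 2 * e (some w) + 1) (b := x.val) (by omega)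
              change 1 ≤ (T (some w) - x.val) ^ 2 at h12
              nlinarith only [h4, h5, h10, h11, h12, hδ0]
            · have h12 := sq_one h
              change 1 ≤ (S (some w) - x.val) ^ 2 at h12
              nlinarith only [h4, h5, h10, h11, h12, hδ0]
          have h7 : (M (some v) (Z (out w)) + δ) * (Z (out w) - x.val) ^ 2 ≤
              (B ^ 2 + 1) * B ^ 2 := by
            have h8 := le_of_abs_le (hMabs (some v) (Z (out w)) (hbZ _))
            have h9 := hsq (Z (out w)) x.val (hbZ _) (hbj x)
            have h10 : δ ≤ 1 := by nlinarith only [hδ0, hδ1, hB2, hE1]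
            have h11 := sq_nonneg (Z (out w) - x.val)
            calc _ ≤ (B ^ 2 + 1) * (Z (out w) - x.val) ^ 2 :=
                  mul_le_mul_of_nonneg_right (by linarith) h11
              _ ≤ _ := mul_le_mul_of_nonneg_left h9 (by positivity)
          have h8 := mul_le_mul_of_nonneg_left h7 hε0.le
          have h9 : ε * ((B ^ 2 + 1) * B ^ 2) = ε * B ^ 4 + ε * B ^ 2 := by ring
          linarith
        · rw [hj]
          have h : j.val ≠ x.val := fun h => hw2 (by rw [Fin.ext h])
          have h3 := sq_one h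
          have h4 := hM0 (some v) j.val
          exact mul_pos (by
            change 0 < M (some v) j.val + δ
            linarith) (by linarith)
    rintro (v | x) (w | y) hadj
    · have hG : G.Adj v w := hadj.2 v w rfl rfl
      have hvw : some v ≠ some w := fun h => hG.ne (Option.some.inj h)
      have ho1 : out v ≠ some w := fun h => (h1 v w h).2 hG
      have ho2 : out w ≠ some v := fun h => (h1 w v h).2 hG.symm
      obtain ⟨c0, c, hj, hv⟩ := key _ (qu_two' (S (some v)) (T (some v)) (S (some w))
        (T (some w)) ε)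
      have h3 : ∀ u, L u (fun x => (x - S (some v)) * (x - T (some v)) *
          ((x - S (some w)) * (x - T (some w))) + ε) =
          ((M (some v) (S (some u)) * M (some w) (S (some u)) + ε) +
            (M (some v) (T (some u)) * M (some w) (T (some u)) + ε)) / 2 -
            ε * (M (some v) (Z (out u)) * M (some w) (Z (out u)) + ε) := fun u => rfl
      refine ⟨c0, c, ?_, ?_, ?_⟩
      · rw [hv, h3, hMS, hMT]
        refine mul_nonpos_of_nonneg_of_nonpos hinv.le ?_
        have h4 := hMz (some v) (out v) (hout v).symm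
        have h5 := hMz (some w) (out v) ho1.symm
        have h6 : 1 ≤ M (some v) (Z (out v)) * M (some w) (Z (out v)) := by nlinarith only [h4, h5]
        have h7 := mul_le_mul_of_nonneg_left h6 hε0.le
        nlinarith only [h7, hε0]
      · rw [hv, h3, hMS, hMT]
        refine mul_nonpos_of_nonneg_of_nonpos hinv.le ?_
        have h4 := hMz (some v) (out w) ho2.symm
        have h5 := hMz (some w) (out w) (hout w).symm
        have h6 : 1 ≤ M (some v) (Z (out w)) * M (some w) (Z (out w)) := by nlinarith only [h4, h5]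
        have h7 := mul_le_mul_of_nonneg_left h6 hε0.le
        nlinarith only [h7, hε0]
      · rintro (u | j) hw1 hw2
        · rw [hv, h3]
          refine mul_pos hinv ?_
          have huv : some v ≠ some u := fun h => hw1 (by rw [Option.some.inj h])
          have huw : some w ≠ some u := fun h => hw2 (by rw [Option.some.inj h])
          have k1 := hMSb (some v) (some u) huv
          have k2 := hMSb (some w) (some u) huw
          have k3 := hMTb (some v) (some u) huv
          have k4 := hMTb (some w) (some u) huw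
          have k5 := mul_le_mul_of_nonneg_left
            (le_of_abs_le (hMMz (some v) (some w) (Z (out u)) (hbZ _))) hε0.le
          nlinarith only [k1, k2, k3, k4, k5, hE4, hε0, hE1]
        · rw [hj]
          exact add_pos_of_nonneg_of_pos (mul_nonneg (hM0 _ _) (hM0 _ _)) hε0
    · exact mixed v y
    · obtain ⟨c0, c, k1, k2, k3⟩ := mixed w x
      exact ⟨c0, c, k2, k1, fun u hu1 hu2 => k3 u hu2 hu1⟩
    · have hxy : x.val ≠ y.val := fun h => hadj.1 (by rw [Fin.ext h])
      by_cases hvxy : ∃ v : V, (x.val = 2 * e (some v) ∧ y.val = 2 * e (some v) + 1) ∨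
          (y.val = 2 * e (some v) ∧ x.val = 2 * e (some v) + 1)
      · obtain ⟨v, hvx⟩ := hvxy
        obtain ⟨c0, c, hj, hv⟩ := key _ (qu_two (S (some v)) (T (some v)) (S (out v))
          (T (out v)) 0 (1 / 8))
        have h3 : ∀ u, L u (fun x => ((x - S (some v)) * (x - T (some v)) + 0) *
            ((x - S (out v)) * (x - T (out v)) + 1 / 8)) =
            ((M (some v) (S (some u)) + 0) * (M (out v) (S (some u)) + 1 / 8) +
              (M (some v) (T (some u)) + 0) * (M (out v) (T (some u)) + 1 / 8)) / 2 -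
              ε * ((M (some v) (Z (out u)) + 0) * (M (out v) (Z (out u)) + 1 / 8)) :=
          fun u => rfl
        have hx0 : M (some v) x.val = 0 := by
          rcases hvx with h | h
          · rw [h.1]
            exact hMS _
          · rw [h.2]
            exact hMT _
        have hy0 : M (some v) y.val = 0 := by
          rcases hvx with h | h
          · rw [h.2]
            exact hMT _
          · rw [h.1]
            exact hMS _
        refine ⟨c0, c, ?_, ?_, ?_⟩
        · rw [hj]
          change (M (some v) x.val + 0) * (M (out v) x.val + 1 / 8) ≤ 0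
          rw [hx0]
          simp
        · rw [hj]
          change (M (some v) y.val + 0) * (M (out v) y.val + 1 / 8) ≤ 0
          rw [hy0]
          simp
        · rintro (u | j) hw1 hw2
          · rw [hv, h3]
            refine mul_pos hinv ?_
            by_cases huv : u = v
            · subst huv
              rw [hMS, hMT, hMzz]
              have h4 := hMz (some u) (out u) (hout u).symm
              nlinarith only [h4, hε0]
            · have huv' : some v ≠ some u := fun h => huv (Option.some.inj h).symm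
              have k1 := hMSb (some v) (some u) huv'
              have k3 := hMTb (some v) (some u) huv'
              have k2 : 0 ≤ M (out v) (S (some u)) := hM0 _ _
              have k4 : 0 ≤ M (out v) (T (some u)) := hM0 _ _
              have k5 : (M (some v) (Z (out u)) + 0) * (M (out v) (Z (out u)) + 1 / 8) ≤
                  B ^ 4 + B ^ 2 := by
                have h5 := le_of_abs_le (hMMz (some v) (out v) (Z (out u)) (hbZ _))
                have h6 := le_of_abs_le (hMabs (some v) (Z (out u)) (hbZ _))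
                nlinarith only [h5, h6, hB2]
              have k6 := mul_le_mul_of_nonneg_left k5 hε0.le
              nlinarith only [k1, k2, k3, k4, k6, hE4, hE2]
          · rw [hj]
            have h4 : j.val ≠ x.val := fun h => hw1 (by rw [Fin.ext h])
            have h5 : j.val ≠ y.val := fun h => hw2 (by rw [Fin.ext h])
            have h6 := hM2 (some v) j.val (by omega) (by omega)
            have h7 := hM0 (out v) j.val
            change 0 < (M (some v) j.val + 0) * (M (out v) j.val + 1 / 8)
            exact mul_pos (by linarith) (by linarith)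
      · push Not at hvxy
        obtain ⟨c0, c, hj, hv⟩ := key _ (qu_sq2 (x.val : ℝ) (y.val : ℝ))
        refine ⟨c0, c, ?_, ?_, ?_⟩
        · rw [hj]
          simp
        · rw [hj]
          simp
        · rintro (u | j) hw1 hw2
          · rw [hv]
            refine mul_pos hinv ?_
            have h3 : L u (fun t => (t - x.val) ^ 2 * (t - y.val) ^ 2) =
              ((S (some u) - x.val) ^ 2 * (S (some u) - y.val) ^ 2 +
                (T (some u) - x.val) ^ 2 * (T (some u) - y.val) ^ 2) / 2 -
                ε * ((Z (out u) - x.val) ^ 2 * (Z (out u) - y.val) ^ 2) := rfl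
            rw [h3]
            have k1 : (Z (out u) - x.val) ^ 2 * (Z (out u) - y.val) ^ 2 ≤ B ^ 4 := by
              calc _ ≤ B ^ 2 * B ^ 2 := mul_le_mul (hsq _ _ (hbZ _) (hbj x))
                    (hsq _ _ (hbZ _) (hbj y)) (sq_nonneg _) (by positivity)
                _ = B ^ 4 := by ring
            have k2 := mul_le_mul_of_nonneg_left k1 hε0.le
            have k3 : 0 ≤ (S (some u) - x.val) ^ 2 * (S (some u) - y.val) ^ 2 := by positivity
            have k4 : 0 ≤ (T (some u) - x.val) ^ 2 * (T (some u) - y.val) ^ 2 := by positivity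
            have k5 : 1 ≤ (S (some u) - x.val) ^ 2 * (S (some u) - y.val) ^ 2 ∨
                1 ≤ (T (some u) - x.val) ^ 2 * (T (some u) - y.val) ^ 2 := by
              by_cases h4 : 2 * e (some u) ≠ x.val ∧ 2 * e (some u) ≠ y.val
              · left
                have h5 := sq_one h4.1
                have h6 := sq_one h4.2
                exact one_le_mul_of_one_le_of_one_le h5 h6
              · right
                have h7 := (hvxy u).1
                have h8 := (hvxy u).2
                have h5 := sq_one (a := 2 * e (some u) + 1) (b := x.val) (by omega)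
                have h6 := sq_one (a := 2 * e (some u) + 1) (b := y.val) (by omega)
                exact one_le_mul_of_one_le_of_one_le h5 h6
            rcases k5 with k5 | k5 <;> linarith
          · rw [hj]
            have h4 : j.val ≠ x.val := fun h => hw1 (by rw [Fin.ext h])
            have h5 : j.val ≠ y.val := fun h => hw2 (by rw [Fin.ext h])
            have h6 := sq_one h4
            have h7 := sq_one h5
            exact mul_pos (by linarith) (by linarith)
  · -- the pairs that are not adjacent
    have non : ∀ v w, v ≠ w → out v = some w → ∃ (a b : ℝ) (c : V ⊕ Fin (2 * m) → ℝ)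
        (y : V ⊕ Fin (2 * m)), y ≠ inl v ∧ y ≠ inl w ∧ (∀ x, 0 ≤ c x) ∧ 0 < c y ∧
        ∑ x, c x = a + b ∧ ∀ k, a * p (inl v) k + b * p (inl w) k = ∑ x, c x * p x k := by
      intro v w hne hvw
      have hsvw : some v ≠ some w := fun h => hne (Option.some.inj h)
      have e1 : e (some v) ≠ e (some w) := he.ne hsvw
      have e2 : e (some v) ≠ e none := he.ne (by simp)
      have e3 : e (some w) ≠ e none := he.ne (by simp)
      have l1 := hem (some v)
      have l2 := hem (some w)
      have l3 := hem none
      obtain ⟨xn, hx0, hx1, hx2, hx3, hx4⟩ : ∃ xn : Fin 5 → ℕ, xn 0 = 2 * e (some v) ∧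
          xn 1 = 2 * e (some v) + 1 ∧ xn 2 = 2 * e (some w) ∧ xn 3 = 2 * e (some w) + 1 ∧
          xn 4 = 2 * e none :=
        ⟨![2 * e (some v), 2 * e (some v) + 1, 2 * e (some w), 2 * e (some w) + 1, 2 * e none],
          rfl, rfl, rfl, rfl, rfl⟩
      have hxm : ∀ i, xn i < 2 * m := by
        intro i
        fin_cases i <;> simp only [Fin.zero_eta, Fin.mk_one, Fin.reduceFinMk] <;> omega
      have hxinj : ∀ i j, i ≠ j → xn i ≠ xn j := by
        intro i j hij
        fin_cases i <;> fin_cases j <;>
          simp only [Fin.zero_eta, Fin.mk_one, Fin.reduceFinMk, ne_eq, not_true_eq_false] at hij ⊢ <;>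
          omega
      obtain ⟨X, hX⟩ : ∃ X : Fin 5 → ℝ, ∀ i, X i = xn i := ⟨fun i => xn i, fun _ => rfl⟩
      have hXinj : Function.Injective X := by
        intro i j hij
        by_contra h
        rw [hX, hX] at hij
        exact hxinj i j h (by exact_mod_cast hij)
      have hXsep : ∀ i j, i ≠ j → 1 ≤ |X i - X j| := by
        intro i j h
        rw [hX, hX, ← one_le_sq_iff_one_le_abs]
        exact sq_one (hxinj i j h)
      have hXb : ∀ i, 0 ≤ X i ∧ X i ≤ B := fun i => by
        rw [hX]
        exact hb0 _ (hxm i)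
      have X0 : X 0 = S (some v) := by rw [hX, hx0]
      have X1 : X 1 = T (some v) := by rw [hX, hx1]
      have X2 : X 2 = S (some w) := by rw [hX, hx2]
      have X3 : X 3 = T (some w) := by rw [hX, hx3]
      have X4 : X 4 = ((2 * e none : ℕ) : ℝ) := by rw [hX, hx4]
      obtain ⟨β, hβ⟩ : ∃ β : Fin 5 → ℝ → ℝ, ∀ i y,
          β i y = (Lagrange.basis univ X i).eval y := ⟨_, fun _ _ => rfl⟩
      have hβ1 : ∀ i, β i (X i) = 1 := fun i => by
        rw [hβ]
        exact Lagrange.eval_basis_self hXinj.injOn (mem_univ _)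
      have hβ0 : ∀ i j, i ≠ j → β i (X j) = 0 := fun i j hij => by
        rw [hβ]
        exact Lagrange.eval_basis_of_ne hij (mem_univ _)
      have hβb : ∀ i y, 0 ≤ y ∧ y ≤ B → |β i y| ≤ B ^ 4 := fun i y hy => by
        rw [hβ]
        exact basis_bound X B hXsep y (fun j => habs _ _ hy (hXb j)) i
      obtain ⟨A, hA⟩ : ∃ A : ℝ, A = 2 * B ^ 4 := ⟨_, rfl⟩
      obtain ⟨γ, hγ⟩ : ∃ γ : Fin 5 → ℝ, ∀ i, γ i =
          A * Lf ε (S (some v)) (T (some v)) (Z (some w)) (β i) +
          1 * Lf ε (S (some w)) (T (some w)) (Z (out w)) (β i) := ⟨_, fun _ => rfl⟩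
      have hcomb : ∀ f : Polynomial ℝ, f.natDegree < 5 →
          A * Lf ε (S (some v)) (T (some v)) (Z (some w)) (fun y => f.eval y) +
            1 * Lf ε (S (some w)) (T (some w)) (Z (out w)) (fun y => f.eval y) =
          ∑ i, γ i * f.eval (X i) := by
        intro f hf
        rw [comb ε A 1 _ _ _ _ _ _ X hXinj f hf]
        refine Finset.sum_congr rfl fun i _ => ?_
        have h3 : β i = fun y => (Lagrange.basis univ X i).eval y := funext (hβ i)
        rw [hγ, h3]
      -- the coefficients are nonnegative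
      have hZw := fun i => abs_le.1 (hβb i (Z (some w)) (hbZ _))
      have hZo := fun i => abs_le.1 (hβb i (Z (out w)) (hbZ _))
      have hE8 : A * (ε * B ^ 4) = 1 / 4 := by
        rw [hA]
        linear_combination 2 * hε8
      have b1 : ∀ i, A * (ε * β i (Z (some w))) ≤ 1 / 4 := fun i => by
        rw [← hE8]
        have := (hZw i).2
        have hA0 : 0 ≤ A := by rw [hA]; positivity
        gcongr
      have b2 : ∀ i, ε * β i (Z (out w)) ≤ 1 / 1000 := fun i =>
        (mul_le_mul_of_nonneg_left (hZo i).2 hε0.le).trans hE4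
      have hA1 : 2592 ≤ A := by rw [hA]; linarith
      have g0 : 0 ≤ γ 0 := by
        rw [hγ]
        unfold Lf
        rw [← X0, ← X1, ← X2, ← X3, hβ1, hβ0 0 1 (by decide), hβ0 0 2 (by decide),
          hβ0 0 3 (by decide)]
        have h3 := b1 0
        have h4 := b2 0
        linarith
      have g1 : 0 ≤ γ 1 := by
        rw [hγ]
        unfold Lf
        rw [← X0, ← X1, ← X2, ← X3, hβ1, hβ0 1 0 (by decide), hβ0 1 2 (by decide),
          hβ0 1 3 (by decide)]
        have h3 := b1 1
        have h4 := b2 1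
        linarith
      have g2 : 0 ≤ γ 2 := by
        rw [hγ]
        unfold Lf
        rw [← X0, ← X1, ← X2, ← X3, hβ1, hβ0 2 0 (by decide), hβ0 2 1 (by decide),
          hβ0 2 3 (by decide)]
        have h3 := b1 2
        have h4 := b2 2
        linarith
      have g3 : 0 ≤ γ 3 := by
        rw [hγ]
        unfold Lf
        rw [← X0, ← X1, ← X2, ← X3, hβ1, hβ0 3 0 (by decide), hβ0 3 1 (by decide),
          hβ0 3 2 (by decide)]
        have h3 := b1 3
        have h4 := b2 3
        linarith
      have g4 : 0 < γ 4 := by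
        obtain ⟨f, hf⟩ : ∃ f : Polynomial ℝ, f =
            (Polynomial.X - Polynomial.C (X 0)) * (Polynomial.X - Polynomial.C (X 1)) *
            ((Polynomial.X - Polynomial.C (X 2)) * (Polynomial.X - Polynomial.C (X 3))) :=
          ⟨_, rfl⟩
        have hfd : f.natDegree < 5 := by
          have : f.natDegree ≤ 4 := by
            rw [hf]
            compute_degree
          omega
        have hfe : ∀ y, f.eval y = M (some v) y * M (some w) y := fun y => by
          rw [hf, X0, X1, X2, X3]
          simp [M]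
        have h3 := hcomb f hfd
        rw [Fin.sum_univ_five] at h3
        unfold Lf at h3
        simp only [hfe] at h3
        rw [X0, X1, X2, X3, hMS, hMT, hMS, hMT, hMzz] at h3
        have h4 := hMz (some v) (some w) hsvw
        have h5 := le_of_abs_le (hMMz (some v) (some w) (Z (out w)) (hbZ _))
        have h6 : 2 ≤ M (some v) (X 4) := by
          rw [X4]
          exact hM2 _ _ (by omega) (by omega)
        have h7 : 2 ≤ M (some w) (X 4) := by
          rw [X4]
          exact hM2 _ _ (by omega) (by omega)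
        have h8 : 0 < γ 4 * (M (some v) (X 4) * M (some w) (X 4)) := by
          have h9 : γ 4 * (M (some v) (X 4) * M (some w) (X 4)) =
              ε * (A * M (some v) (Z (some w)) / 4 -
                M (some v) (Z (out w)) * M (some w) (Z (out w))) := by linarith
          rw [h9]
          refine mul_pos hε0 ?_
          have h10 : A * (15 / 4) ≤ A * M (some v) (Z (some w)) := by
            gcongr
          rw [hA] at h10 ⊢
          linarith
        have h9 : 0 < M (some v) (X 4) * M (some w) (X 4) := mul_pos (by linarith) (by linarith)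
        exact (mul_pos_iff_of_pos_right h9).1 h8
      have gall : ∀ i, 0 ≤ γ i := by
        intro i
        fin_cases i
        · exact g0
        · exact g1
        · exact g2
        · exact g3
        · exact g4.le
      -- the coefficients at the vertices
      obtain ⟨c, hc1, hc2⟩ : ∃ c : V ⊕ Fin (2 * m) → ℝ, (∀ u, c (inl u) = 0) ∧
          ∀ j, c (inr j) = ∑ i, if xn i = j.val then γ i else 0 :=
        ⟨Sum.elim (fun _ => 0) (fun j => ∑ i, if xn i = j.val then γ i else 0),
          fun _ => rfl, fun _ => rfl⟩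
      have hsum : ∀ F : ℕ → ℝ, ∑ j : Fin (2 * m), c (inr j) * F j.val = ∑ i, γ i * F (xn i) := by
        intro F
        simp only [hc2, Finset.sum_mul]
        rw [Finset.sum_comm]
        refine Finset.sum_congr rfl fun i _ => ?_
        rw [Finset.sum_eq_single ⟨xn i, hxm i⟩]
        · simp
        · intro j _ hj
          rw [if_neg (fun h => hj (Fin.ext h.symm)), zero_mul]
        · intro h
          exact absurd (mem_univ _) h
      refine ⟨A * (1 - ε), 1 - ε, c, inr ⟨2 * e none, by omega⟩, by simp, by simp, ?_, ?_, ?_, ?_⟩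
      · rintro (u | j)
        · rw [hc1]
        · rw [hc2]
          refine Finset.sum_nonneg fun i _ => ?_
          split_ifs
          · exact gall i
          · exact le_rfl
      · rw [hc2]
        have h3 : γ 4 ≤ ∑ i, if xn i = 2 * e none then γ i else 0 := by
          have h4 := Finset.single_le_sum (f := fun i => if xn i = 2 * e none then γ i else 0)
            (fun i _ => by
              split_ifs
              · exact gall i
              · exact le_rfl) (mem_univ (4 : Fin 5))
          rwa [if_pos hx4] at h4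
        exact lt_of_lt_of_le g4 h3
      · rw [Fintype.sum_sum_type]
        simp only [hc1, Finset.sum_const_zero, zero_add]
        have h3 := hsum fun _ => 1
        simp only [mul_one] at h3
        rw [h3]
        have h4 := hcomb 1 (by simp)
        simp only [Polynomial.eval_one, mul_one, Lf] at h4
        rw [← h4]
        ring
      · intro k
        rw [Fintype.sum_sum_type]
        simp only [hc1, zero_mul, Finset.sum_const_zero, zero_add]
        have h3 := hsum fun j => mom (j : ℝ) k
        have h4 : ∑ j : Fin (2 * m), c (inr j) * p (inr j) k =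
            ∑ j : Fin (2 * m), c (inr j) * mom ((j.val : ℕ) : ℝ) k := rfl
        rw [h4, h3]
        have h5 := hcomb (Polynomial.X ^ (k.val + 1)) (by
          rw [Polynomial.natDegree_X_pow]
          omega)
        simp only [Polynomial.eval_pow, Polynomial.eval_X, Lf, hX] at h5
        have h6 : ∑ i, γ i * mom (xn i : ℝ) k = ∑ i, γ i * (xn i : ℝ) ^ (k.val + 1) := rfl
        rw [h6, ← h5]
        change A * (1 - ε) * ((1 - ε)⁻¹ * ((S (some v) ^ (k.val + 1) +
          T (some v) ^ (k.val + 1)) / 2 - ε * Z (out v) ^ (k.val + 1))) +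
          (1 - ε) * ((1 - ε)⁻¹ * ((S (some w) ^ (k.val + 1) +
          T (some w) ^ (k.val + 1)) / 2 - ε * Z (out w) ^ (k.val + 1))) = _
        have h7 : (1 - ε) ≠ 0 := by linarith
        rw [hvw]
        field_simp
    rintro (v | x) (w | y) hne hadj
    · have hvw : v ≠ w := fun h => hne (by rw [h])
      have hG : ¬ G.Adj v w := by
        intro h
        refine hadj ⟨hne, fun u u' hu hu' => ?_⟩
        rw [← Sum.inl.inj hu, ← Sum.inl.inj hu']
        exact h
      rcases h2 v w hvw hG with h | h
      · exact non v w hvw h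
      · obtain ⟨a, b, c, y, k1, k2, k3, k4, k5, k6⟩ := non w v hvw.symm h
        exact ⟨b, a, c, y, k2, k1, k3, k4, by rw [k5, add_comm], fun k => by
          rw [← k6, add_comm]⟩
    · exact absurd ⟨hne, fun u u' _ hu' => by cases hu'⟩ hadj
    · exact absurd ⟨hne, fun u u' hu _ => by cases hu⟩ hadj
    · exact absurd ⟨hne, fun u u' hu _ => by cases hu⟩ hadj

theorem p_four : FourStm := by
  classical
  intro V _ G hG
  obtain ⟨o, ho⟩ := hG
  let out : V → Option V := fun v =>
    if ∃ w, o v = some w ∧ w ≠ v ∧ ¬ G.Adj v w then o v else none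
  have h1 : ∀ v w, out v = some w → w ≠ v ∧ ¬ G.Adj v w := by
    intro v w h
    simp only [out] at h
    split_ifs at h with h3
    obtain ⟨u, k1, k2⟩ := h3
    rw [h] at k1
    rw [Option.some.inj k1]
    exact k2
  have h2 : ∀ u v, u ≠ v → ¬ G.Adj u v → out u = some v ∨ out v = some u := by
    intro u v huv hadj
    rcases ho u v huv hadj with h | h
    · left
      simp only [out]
      rw [if_pos ⟨v, h, huv.symm, hadj⟩]
      exact h
    · right
      simp only [out]
      rw [if_pos ⟨u, h, huv, fun h' => hadj h'.symm⟩]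
      exact h
  let e : Option V → ℕ := fun a => (Fintype.equivFin (Option V) a).val
  have he : Function.Injective e := fun a b h =>
    (Fintype.equivFin (Option V)).injective (Fin.ext h)
  refine ⟨2 * (Fintype.card (Option V) + 3), by omega, ?_⟩
  exact core G out h1 h2 e he _ (by omega) fun a => by
    have := (Fintype.equivFin (Option V) a).2
    change (Fintype.equivFin (Option V) a).val < _
    omega

end Pool.Agent.W2helper71.JN
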